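import Mathlib
import Pool.Agent.U656.RG.KConn
import Pool.Agent.U656.RG.Twin
import Pool.Agent.U656.RG.Cone

/-!
# Generic rigidity after the deletion of vertices and edges

How many vertices and edges may be deleted from a `c`-connected graph so that the rest is still
generically rigid in `ℝ^d`? For `d ≥ 2` the answer is exact: the rest is always generically rigid after
the deletion of at most `a` vertices and at most `b` edges if and only if `a + d (d + 1) ≤ c` and
`a + b + d (d + 1) / 2 ≤ c`. For `d = 3`: a `12`-connected graph remains generically rigid when any six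
edges are deleted, and seven edges are too many.

Outline. Let `C` be the closure of the rest of the graph in the generic rigidity matroid. By averaging
over vertex orders, twice the defect of `C` is at most the sum of `d (d + 1) - |∂R|` over the cliques
`R` of `C` which are closed neighbourhoods of simplicial vertices (`∂R` is the set of the vertices of
`R` which are not simplicial), plus the sum of `d (d + 1) - deg v` over the vertices `v` in no such `R`.
If `G` is `c`-connected then a term of size `x > 0` needs at least `x + c - d (d + 1)` deleted edges
which leave the interior of `R` (or which meet `v`), and each deleted edge is counted at most twice.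
-/

set_option autoImplicit false

namespace Pool.Agent.Results.MP_37c7bf_co.Deletions

open Pool.Agent.H283R2.DR Pool.Agent.H789R5 Pool.Agent.U656.RG

/-- `G` is `c`-connected: it has more than `c` vertices, and it is connected after the deletion of
fewer than `c` vertices -/
def KConnected {V : Type} (c : ℕ) (G : SimpleGraph V) : Prop :=
  c < Nat.card V ∧ ∀ X : Set V, X.ncard < c → (G.induce Xᶜ).Connected

/-- the graph after the deletion of the vertices in `U` and the edges in `F` -/
def remove {V : Type} (G : SimpleGraph V) (U : Set V) (F : Set (Sym2 V)) : SimpleGraph ↥Uᶜ :=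
  (G.deleteEdges F).induce Uᶜ

open Classical in
/-- **Deletion of vertices and edges from a `c`-connected graph.**

Let `d ≥ 2` and `D = d (d + 1)`.

* If `G` is `c`-connected with `n` vertices and `|U| + D ≤ c`, then the graph `G - U - F` has generic
  rank at least `d (n - |U|) - max (D / 2, min (|F| + |U| + D - c, |F| D / (c - |U|)))` in `ℝ^d`.
* For all `a`, `b`, `c`: every `c`-connected graph remains generically rigid in `ℝ^d` after the
  deletion of any at most `a` vertices and any at most `b` edges if and only if `a + D ≤ c` and
  `a + b + D / 2 ≤ c`. -/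
theorem result (d : ℕ) (hd : 2 ≤ d) :
    (∀ (c : ℕ) (V : Type) [Fintype V] (G : SimpleGraph V) (U : Set V) (F : Set (Sym2 V)),
      KConnected c G → U.ncard + d * (d + 1) ≤ c →
      d * (Nat.card V - U.ncard) ≤ genRank d (remove G U F) +
        max (d * (d + 1) / 2) (min (F.ncard + (U.ncard + d * (d + 1)) - c)
          (F.ncard * (d * (d + 1)) / (c - U.ncard)))) ∧
    (∀ a b c : ℕ,
      (∀ (V : Type) [Fintype V] (G : SimpleGraph V) (U : Set V) (F : Set (Sym2 V)),
        KConnected c G → U.ncard ≤ a → F.ncard ≤ b → GenRigid d (remove G U F)) ↔
      a + d * (d + 1) ≤ c ∧ a + b + d * (d + 1) / 2 ≤ c) := by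
  have hd1 : 1 ≤ d := by omega
  have heven : 2 * (d * (d + 1) / 2) = d * (d + 1) :=
    Nat.mul_div_cancel' (Nat.even_mul_succ_self d).two_dvd
  refine ⟨?_, ?_⟩
  · intro c V _ G U F hG hU
    have hcon : Con c G := con_of_kconn (by rw [← Nat.card_eq_fintype_card]; exact hG.1) hG.2
    obtain ⟨p, hp⟩ := exists_mg ↥Uᶜ d
    have h1 := mo_delete' hd1 hcon U F hU hp
    have h2 := genRank_add hp (remove G U F)
    have h3 := card_compl U
    have h4 : Nat.card V - U.ncard = Fintype.card ↥Uᶜ := by
      rw [Nat.card_eq_fintype_card]
      omega
    rw [h4]
    unfold remove at h2 ⊢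
    omega
  · intro a b c
    constructor
    · intro h
      have ha : a + d * (d + 1) ≤ c := by
        by_contra hc
        push Not at hc
        obtain ⟨V, hV, G, U, hG, hU, hr⟩ := cone_sharp hd a c hc
        exact hr (h V G U ∅ hG hU (by rw [Set.ncard_empty]; exact Nat.zero_le _))
      refine ⟨ha, ?_⟩
      by_contra hc
      push Not at hc
      refine twin_not_rigid hd1 ha (h (Bool × Fin (c + 1)) (twin c) (twinU c a)
        (crossing c a (c + 1 - d * (d + 1) / 2)) (twin_conn c) (twinU_card c a) ?_)
      have := crossing_card c a (c + 1 - d * (d + 1) / 2)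
      omega
    · rintro ⟨h1, h2⟩ V _ G U F hG hU hF
      have hcon : Con c G := con_of_kconn (by rw [← Nat.card_eq_fintype_card]; exact hG.1) hG.2
      obtain ⟨p, hp⟩ := exists_mg ↥Uᶜ d
      have h3 := mo_delete' hd1 hcon U F (by omega) hp
      have h4 := card_compl U
      have h5 := hG.1
      rw [Nat.card_eq_fintype_card] at h5
      have hdD : d ≤ d * (d + 1) := by nlinarith
      have hn : d ≤ Fintype.card ↥Uᶜ := by omega
      unfold remove
      rw [genRigid_iff hp hn]
      refine h3.trans (max_le le_rfl ((min_le_left _ _).trans ?_))
      omega

end Pool.Agent.Results.MP_37c7bf_co.Deletions
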