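import Mathlib
import Pool.Agent.U656.RG.EssDefect

/-!
# Graphs in which any two vertices have many neighbours

A graph of minimum degree at least `d (d + 1)` whose small vertex cuts are few is generically rigid in
`ℝ^d` (`Pool.Agent.Results.MP_37c7bf_co.SmallCuts`), and the degree condition is necessary for this
way of counting: a vertex of smaller degree gives a small cut. Here the degree condition is weakened
to `3 d (d + 1) / 4 + 1`, and single vertices of low degree do not count as small cuts any more; the
condition is that any two vertices together have at least `d (d + 1)` neighbours. In particular,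
essentially `d (d + 1)`-connected graphs of minimum degree at least `3 d (d + 1) / 4 + 1` are
generically rigid. For `d = 3`, for example, the graph may be regular of degree 10.

Outline. Let `C` be the closure of `G` in the generic rigidity matroid. Call a vertex bad if it has
fewer than `d (d + 1)` neighbours in `C` and they are pairwise adjacent, with one exception. The clique
of a bad vertex contains no other bad and no simplicial vertex, because of the condition on pairs. So
the vertices can be ordered such that the simplicial vertices come last, and before them the bad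
vertices; a bad vertex adds at least `d` to the rank, and `d + 1` if its outer neighbour is among the
other vertices. For the other vertices one takes the average over all orders.
-/

set_option autoImplicit false

namespace Pool.Agent.Results.MP_37c7bf_co.PairsOfVertices

open Finset Pool.Agent.H283R2.DR Pool.Agent.H789R5 Pool.Agent.N423.DE

/-- the vertices outside `A` with a neighbour in `A` -/
def nbhd {V : Type} (G : SimpleGraph V) (A : Set V) : Set V := {w | w ∉ A ∧ ∃ u ∈ A, G.Adj u w}

/-- **The defect of a graph in which any two vertices have at least `d (d + 1)` neighbours.**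

Let `d ≥ 1`, and let `G` be a finite graph with `n` vertices in which each vertex has at least
`3 d (d + 1) / 4 + 1` neighbours and any two vertices together have at least `d (d + 1)` neighbours
(other than these two vertices).

* There are finitely many sets `A_i` of at least three vertices, pairwise disjoint and with no edges
  between them, with fewer than `d (d + 1)` neighbours each, such that
  `2 (d n - rank G) ≤ ∑_i (d (d + 1) - |N(A_i)|)`, where `rank G` is the rank of `G` in the generic
  `d`-dimensional rigidity matroid. If `G` is not generically rigid in `ℝ^d` then at least three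
  vertices are outside of `A_i` and `N(A_i)`, for each `i`, and the sum is at least
  `d (d + 1) + 2`.
* If every set `A` of at least three vertices, such that at least three vertices are outside of `A`
  and `N(A)`, has at least `d (d + 1)` neighbours, then `G` is generically rigid in `ℝ^d`. -/
theorem result (d : ℕ) (hd : 1 ≤ d) (V : Type) [Fintype V] (G : SimpleGraph V)
    (hdeg : ∀ v, 3 * (d * (d + 1)) + 4 ≤ 4 * {w | G.Adj v w}.ncard)
    (hpair : ∀ u v, u ≠ v → d * (d + 1) ≤ (nbhd G {u, v}).ncard) :
    (∃ (t : ℕ) (A : Fin t → Set V), (∀ i, 3 ≤ (A i).ncard) ∧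
      (∀ i j, i ≠ j → ∀ u ∈ A i, ∀ w ∈ A j, u ≠ w ∧ ¬ G.Adj u w) ∧
      (∀ i, (nbhd G (A i)).ncard < d * (d + 1)) ∧
      2 * (d * Fintype.card V) ≤
        2 * genRank d G + ∑ i, (d * (d + 1) - (nbhd G (A i)).ncard) ∧
      (¬ GenRigid d G → (∀ i, 3 ≤ (A i ∪ nbhd G (A i))ᶜ.ncard) ∧
        d * (d + 1) + 2 ≤ ∑ i, (d * (d + 1) - (nbhd G (A i)).ncard))) ∧
    ((∀ A : Set V, 3 ≤ A.ncard → 3 ≤ (A ∪ nbhd G A)ᶜ.ncard →
      d * (d + 1) ≤ (nbhd G A).ncard) → GenRigid d G) := by
  classical
  obtain ⟨p, hp⟩ := exists_mg V d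
  set C := cl G p with hCdef
  have hC : Closed C p := closed_cl G p
  have hGC : G ≤ C := le_cl G p
  have hctx : Pool.Agent.U656.RG.Ctx C p := by
    refine ⟨hp, hd, hC, ?_, ?_⟩
    · intro v
      refine (hdeg v).trans ?_
      have h1 := ncard_nb G v
      change {w | G.Adj v w}.ncard = (nb G v).card at h1
      rw [h1]
      exact Nat.mul_le_mul_left _ (card_le_card (Pool.Agent.U656.RG.nb_mono hGC v))
    · intro u v huv
      refine (hpair u v huv).trans ?_
      rw [← Set.ncard_coe_finset ((nb C u ∪ nb C v) \ {u, v})]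
      refine Set.ncard_le_ncard ?_ (Set.toFinite _)
      rintro w ⟨hw, a, ha, haw⟩
      rw [mem_coe, mem_sdiff, mem_union, mem_nb, mem_nb, mem_insert, mem_singleton]
      refine ⟨?_, hw⟩
      rcases ha with rfl | ha
      · exact Or.inl (hGC haw)
      · rw [Set.mem_singleton_iff] at ha
        subst ha
        exact Or.inr (hGC haw)
  have hdef := hctx.defect
  have hmoC : mo C p = mo G p := mo_cl G p
  have hrank := genRank_add hp G
  -- the neighbours of the interiors
  have hnb : ∀ R ∈ Pool.Agent.U656.RG.ends C,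
      nbhd G (Pool.Agent.U656.RG.itr C R : Set V) ⊆ (Pool.Agent.U656.RG.bd C R : Set V) := by
    rintro R hR w ⟨hw, u, hu, huw⟩
    rw [mem_coe] at hu hw ⊢
    have h1 := Pool.Agent.U656.RG.cN_of_itr hR hu
    have h2 : w ∈ R := by
      rw [← h1]
      exact Pool.Agent.U656.RG.mem_cN.2 (Or.inr (hGC huw))
    rw [Pool.Agent.U656.RG.mem_bd]
    exact ⟨h2, fun h3 => hw (Pool.Agent.U656.RG.mem_itr.2 ⟨h2, h3⟩)⟩
  have hnbc : ∀ R ∈ Pool.Agent.U656.RG.ends C,
      (nbhd G (Pool.Agent.U656.RG.itr C R : Set V)).ncard ≤
        (Pool.Agent.U656.RG.bd C R).card := by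
    intro R hR
    rw [← Set.ncard_coe_finset (Pool.Agent.U656.RG.bd C R)]
    exact Set.ncard_le_ncard (hnb R hR) (Set.toFinite _)
  set S : Finset (Finset V) := (Pool.Agent.U656.RG.ends2 C).filter fun R =>
    (nbhd G (Pool.Agent.U656.RG.itr C R : Set V)).ncard < d * (d + 1) with hS
  have hSE : ∀ R ∈ S, R ∈ Pool.Agent.U656.RG.ends C := fun R hR =>
    (Pool.Agent.U656.RG.mem_ends2.1 (mem_filter.1 hR).1).1
  have hS3 : ∀ R ∈ S, 3 ≤ (Pool.Agent.U656.RG.itr C R).card := by
    intro R hR
    have h2 := (Pool.Agent.U656.RG.mem_ends2.1 (mem_filter.1 hR).1).2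
    by_contra hc
    have h3 : (Pool.Agent.U656.RG.itr C R).card = 2 := by omega
    obtain ⟨u, v, huv, he⟩ := card_eq_two.1 h3
    have h4 := hpair u v huv
    have h5 := (mem_filter.1 hR).2
    have h6 : (Pool.Agent.U656.RG.itr C R : Set V) = {u, v} := by
      rw [he]; push_cast; rfl
    rw [h6] at h5
    omega
  have hsum : 2 * mo G p ≤
      ∑ R ∈ S, (d * (d + 1) - (nbhd G (Pool.Agent.U656.RG.itr C R : Set V)).ncard) := by
    rw [← hmoC]
    refine hdef.trans ?_
    rw [hS, sum_filter]
    refine sum_le_sum fun R hR => ?_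
    have h1 := hnbc R (Pool.Agent.U656.RG.mem_ends2.1 hR).1
    split_ifs with h2
    · omega
    · omega
  set e := S.equivFin.symm with he
  set A : Fin S.card → Set V := fun i => (Pool.Agent.U656.RG.itr C (e i : Finset V) : Set V)
    with hA
  have hsumA : ∑ i, (d * (d + 1) - (nbhd G (A i)).ncard) =
      ∑ R ∈ S, (d * (d + 1) - (nbhd G (Pool.Agent.U656.RG.itr C R : Set V)).ncard) := by
    rw [← sum_coe_sort S (fun R =>
      (d * (d + 1) - (nbhd G (Pool.Agent.U656.RG.itr C R : Set V)).ncard))]
    exact Equiv.sum_comp e (fun R : S =>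
      (d * (d + 1) - (nbhd G (Pool.Agent.U656.RG.itr C (R : Finset V) : Set V)).ncard))
  have hdisj : ∀ i j, i ≠ j → ∀ u ∈ A i, ∀ w ∈ A j, ¬ (u = w ∨ C.Adj u w) := by
    intro i j hij u hu w hw h
    apply hij
    have hu' : u ∈ Pool.Agent.U656.RG.itr C (e i : Finset V) := mem_coe.1 hu
    have hw' : w ∈ Pool.Agent.U656.RG.itr C (e j : Finset V) := mem_coe.1 hw
    have h1 := Pool.Agent.U656.RG.cN_of_itr (hSE _ (e i).2) hu'
    have h2 := Pool.Agent.U656.RG.cN_of_itr (hSE _ (e j).2) hw'
    have h3 : w ∈ Pool.Agent.U656.RG.cN C u := by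
      rw [Pool.Agent.U656.RG.mem_cN]
      rcases h with h | h
      · exact Or.inl h.symm
      · exact Or.inr h
    have h4 := Pool.Agent.U656.RG.cN_eq (Pool.Agent.U656.RG.mem_itr.1 hu').2
      (Pool.Agent.U656.RG.mem_itr.1 hw').2 h3
    apply e.injective
    apply Subtype.ext
    rw [← h1, ← h2, h4]
  have hA3 : ∀ i, 3 ≤ (A i).ncard := by
    intro i
    rw [hA]
    change 3 ≤ ((Pool.Agent.U656.RG.itr C (e i : Finset V) : Finset V) : Set V).ncard
    rw [Set.ncard_coe_finset]
    exact hS3 _ (e i).2
  have hAlt : ∀ i, (nbhd G (A i)).ncard < d * (d + 1) := fun i => (mem_filter.1 (e i).2).2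
  have hn : ¬ GenRigid d G → d ≤ Fintype.card V := by
    intro hnr
    by_contra hc
    push Not at hc
    rcases isEmpty_or_nonempty V with hV | ⟨⟨v⟩⟩
    · exact hnr ⟨fun v => (hV.false v).elim, fun q _ => ⟨0, 0, by simp, fun v =>
        (hV.false v).elim⟩⟩
    · have h1 := Pool.Agent.U656.RG.card_nb_lt C v
      have h2 := hctx.deg_gt v
      omega
  have hcompl : ¬ GenRigid d G → ∀ i, 3 ≤ (A i ∪ nbhd G (A i))ᶜ.ncard := by
    intro hnr i
    have hR := hSE _ (e i).2
    obtain ⟨y, hy⟩ : ∃ y, y ∉ (e i : Finset V) := by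
      by_contra hall
      push Not at hall
      apply hnr
      refine Pool.Agent.U656.RG.rigid_of_complete hp (hn hnr) ?_
      intro x y hxy
      exact Pool.Agent.U656.RG.ends_clique hR x (hall x) y (hall y) hxy
    have h1 := (hctx.end_mx hR).2 y hy
    have h2 := hctx.deg_gt y
    have h3 : ((insert y (nb C y \ (e i : Finset V)) : Finset V) : Set V) ⊆
        (A i ∪ nbhd G (A i))ᶜ := by
      intro z hz hz'
      have hzR : z ∉ (e i : Finset V) := by
        rw [mem_coe, mem_insert, mem_sdiff] at hz
        rcases hz with rfl | hz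
        · exact hy
        · exact hz.2
      rcases hz' with hz' | hz'
      · exact hzR (Pool.Agent.U656.RG.mem_itr.1 (mem_coe.1 hz')).1
      · exact hzR (Pool.Agent.U656.RG.mem_bd.1 (mem_coe.1 (hnb _ hR hz'))).1
    have h4 := Set.ncard_le_ncard h3 (Set.toFinite _)
    rw [Set.ncard_coe_finset, card_insert_of_notMem (fun h => not_mem_nb C y (mem_sdiff.1 h).1)]
      at h4
    have h5 := card_sdiff_add_card_inter (nb C y) (e i : Finset V)
    omega
  refine ⟨⟨S.card, A, hA3, ?_, hAlt, ?_, ?_⟩, ?_⟩
  · intro i j hij u hu w hw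
    have h1 := hdisj i j hij u hu w hw
    exact ⟨fun h => h1 (Or.inl h), fun h => h1 (Or.inr (hGC h))⟩
  · rw [hsumA]
    omega
  · intro hnr
    refine ⟨hcompl hnr, ?_⟩
    rw [hsumA]
    have h1 := hn hnr
    rw [genRigid_iff hp h1] at hnr
    have heven : 2 * (d * (d + 1) / 2) = d * (d + 1) :=
      Nat.mul_div_cancel' (Nat.even_mul_succ_self d).two_dvd
    omega
  · intro hess
    by_contra hnr
    have h1 := hcompl hnr
    have h2 : S.card = 0 := by
      by_contra hne
      have hi : 0 < S.card := Nat.pos_of_ne_zero hne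
      have h3 := hess (A ⟨0, hi⟩) (hA3 _) (h1 _)
      have h4 := hAlt ⟨0, hi⟩
      omega
    rw [card_eq_zero] at h2
    rw [h2, sum_empty] at hsum
    have h3 := hn hnr
    rw [genRigid_iff hp h3] at hnr
    have heven : 2 * (d * (d + 1) / 2) = d * (d + 1) :=
      Nat.mul_div_cancel' (Nat.even_mul_succ_self d).two_dvd
    omega

end Pool.Agent.Results.MP_37c7bf_co.PairsOfVertices
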