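import Mathlib
import Pool.Agent.U656.RG.Defect

/-!
# The generic rank and the small vertex cuts of a graph

Let `G` be a graph of minimum degree at least `d (d + 1)`. The defect of `G`, the number of degrees of
freedom which a generic realization of `G` in `ℝ^d` has in addition to those of a rigid body, is
bounded by its small vertex cuts: it is at most half the sum of the numbers `d (d + 1) - |N(A_i)|`,
minus `d (d + 1) / 2`, for a family of pairwise disjoint and non-adjacent sets `A_i` with fewer than
`d (d + 1)` neighbours. If there are no such cuts, then `G` is generically rigid (the theorem on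
`d (d + 1)`-connected graphs); a `k`-connected graph of minimum degree at least `d (d + 1)` which is
not generically rigid has at least `(d (d + 1) + 2) / (d (d + 1) - k)` disjoint ends of this kind.

Outline. Let `C` be the closure of `G` in the generic rigidity matroid. The vertices of `C` whose
neighbours are pairwise adjacent form the interiors `A_i` of complete graphs `R_i`. The graph `C'` of
the other vertices is closed; by the averaging argument of `Pool.Agent.U656.RG.Pot` its rank is at
least the sum of the expected gains of its vertices, and the gain is at least `d`, except at the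
vertices of the `R_i`, where it is at least `d - (d (d + 1) - b) / (2 b)` if `b ≥ d` vertices of `R_i`
are in `C'`. Finally the interiors are added.
-/

set_option autoImplicit false

namespace Pool.Agent.Results.MP_37c7bf_co.SmallCuts

open Finset Pool.Agent.H283R2.DR Pool.Agent.H789R5 Pool.Agent.N423.DE

/-- the vertices outside `A` with a neighbour in `A` -/
def nbhd {V : Type} (G : SimpleGraph V) (A : Set V) : Set V := {w | w ∉ A ∧ ∃ u ∈ A, G.Adj u w}

/-- **The defect of a graph of minimum degree at least `d (d + 1)`.**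

Let `d ≥ 1`, and let `G` be a finite graph with `n` vertices in which each vertex has at least
`d (d + 1)` neighbours. Then there are finitely many nonempty sets `A_i` of vertices, pairwise
disjoint and with no edges between them, with fewer than `d (d + 1)` neighbours each, such that

`2 (d n - rank G) ≤ ∑_i (d (d + 1) - |N(A_i)|)`,

where `rank G` is the rank of `G` in the generic `d`-dimensional rigidity matroid. If `G` is not
generically rigid in `ℝ^d` then each `A_i` together with its neighbours is not the whole vertex set,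
and the sum is at least `d (d + 1) + 2`. -/
theorem result (d : ℕ) (hd : 1 ≤ d) (V : Type) [Fintype V] (G : SimpleGraph V)
    (hdeg : ∀ v, d * (d + 1) ≤ {w | G.Adj v w}.ncard) :
    ∃ (t : ℕ) (A : Fin t → Set V), (∀ i, (A i).Nonempty) ∧
      (∀ i j, i ≠ j → ∀ u ∈ A i, ∀ w ∈ A j, u ≠ w ∧ ¬ G.Adj u w) ∧
      (∀ i, (nbhd G (A i)).ncard < d * (d + 1)) ∧
      2 * (d * Fintype.card V) ≤
        2 * genRank d G + ∑ i, (d * (d + 1) - (nbhd G (A i)).ncard) ∧
      (¬ GenRigid d G → (∀ i, A i ∪ nbhd G (A i) ≠ Set.univ) ∧
        d * (d + 1) + 2 ≤ ∑ i, (d * (d + 1) - (nbhd G (A i)).ncard)) := by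
  classical
  obtain ⟨p, hp⟩ := exists_mg V d
  set C := cl G p with hCdef
  have hC : Closed C p := closed_cl G p
  have hGC : G ≤ C := le_cl G p
  have hdegC : ∀ v, d * (d + 1) ≤ (nb C v).card := by
    intro v
    refine (hdeg v).trans ?_
    have h1 := ncard_nb G v
    change {w | G.Adj v w}.ncard = (nb G v).card at h1
    rw [h1]
    exact card_le_card (Pool.Agent.U656.RG.nb_mono hGC v)
  have hdef := Pool.Agent.U656.RG.defect hp hd hC hdegC
  have hmoC : mo C p = mo G p := mo_cl G p
  have hrank := genRank_add hp G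
  -- the neighbours of the interiors
  have hnb : ∀ R ∈ Pool.Agent.U656.RG.ends C,
      nbhd G (Pool.Agent.U656.RG.itr C R : Set V) ⊆ (Pool.Agent.U656.RG.bd C R : Set V) := by
    rintro R hR w ⟨hw, u, hu, huw⟩
    rw [mem_coe] at hu hw ⊢
    have h1 := Pool.Agent.U656.RG.cN_of_itr hR hu
    have h2 : w ∈ R := by
      rw [← h1]
      exact Pool.Agent.U656.RG.mem_cN.2 (Or.inr (hGC huw))
    rw [Pool.Agent.U656.RG.mem_bd]
    exact ⟨h2, fun h3 => hw (Pool.Agent.U656.RG.mem_itr.2 ⟨h2, h3⟩)⟩
  have hnbc : ∀ R ∈ Pool.Agent.U656.RG.ends C,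
      (nbhd G (Pool.Agent.U656.RG.itr C R : Set V)).ncard ≤
        (Pool.Agent.U656.RG.bd C R).card := by
    intro R hR
    rw [← Set.ncard_coe_finset (Pool.Agent.U656.RG.bd C R)]
    exact Set.ncard_le_ncard (hnb R hR) (Set.toFinite _)
  set S : Finset (Finset V) := (Pool.Agent.U656.RG.ends C).filter fun R =>
    (nbhd G (Pool.Agent.U656.RG.itr C R : Set V)).ncard < d * (d + 1) with hS
  have hSE : ∀ R ∈ S, R ∈ Pool.Agent.U656.RG.ends C := fun R hR => (mem_filter.1 hR).1
  have hsum : 2 * mo G p ≤
      ∑ R ∈ S, (d * (d + 1) - (nbhd G (Pool.Agent.U656.RG.itr C R : Set V)).ncard) := by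
    rw [← hmoC]
    refine hdef.trans ?_
    rw [hS, sum_filter]
    refine sum_le_sum fun R hR => ?_
    have h1 := hnbc R hR
    split_ifs with h2
    · omega
    · omega
  set e := S.equivFin.symm with he
  set A : Fin S.card → Set V := fun i => (Pool.Agent.U656.RG.itr C (e i : Finset V) : Set V)
    with hA
  have hsumA : ∑ i, (d * (d + 1) - (nbhd G (A i)).ncard) =
      ∑ R ∈ S, (d * (d + 1) - (nbhd G (Pool.Agent.U656.RG.itr C R : Set V)).ncard) := by
    rw [← sum_coe_sort S (fun R =>
      (d * (d + 1) - (nbhd G (Pool.Agent.U656.RG.itr C R : Set V)).ncard))]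
    exact Equiv.sum_comp e (fun R : S =>
      (d * (d + 1) - (nbhd G (Pool.Agent.U656.RG.itr C (R : Finset V) : Set V)).ncard))
  have hdisj : ∀ i j, i ≠ j → ∀ u ∈ A i, ∀ w ∈ A j, ¬ (u = w ∨ C.Adj u w) := by
    intro i j hij u hu w hw h
    apply hij
    have hu' : u ∈ Pool.Agent.U656.RG.itr C (e i : Finset V) := mem_coe.1 hu
    have hw' : w ∈ Pool.Agent.U656.RG.itr C (e j : Finset V) := mem_coe.1 hw
    have h1 := Pool.Agent.U656.RG.cN_of_itr (hSE _ (e i).2) hu'
    have h2 := Pool.Agent.U656.RG.cN_of_itr (hSE _ (e j).2) hw'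
    have h3 : w ∈ Pool.Agent.U656.RG.cN C u := by
      rw [Pool.Agent.U656.RG.mem_cN]
      rcases h with h | h
      · exact Or.inl h.symm
      · exact Or.inr h
    have h4 := Pool.Agent.U656.RG.cN_eq (Pool.Agent.U656.RG.mem_itr.1 hu').2
      (Pool.Agent.U656.RG.mem_itr.1 hw').2 h3
    apply e.injective
    apply Subtype.ext
    rw [← h1, ← h2, h4]
  refine ⟨S.card, A, ?_, ?_, ?_, ?_, ?_⟩
  · intro i
    obtain ⟨v, hv, hvR⟩ := Pool.Agent.U656.RG.mem_ends.1 (hSE _ (e i).2)
    refine ⟨v, mem_coe.2 (Pool.Agent.U656.RG.mem_itr.2 ⟨?_, hv⟩)⟩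
    rw [← hvR]
    exact Pool.Agent.U656.RG.mem_cN.2 (Or.inl rfl)
  · intro i j hij u hu w hw
    have h1 := hdisj i j hij u hu w hw
    exact ⟨fun h => h1 (Or.inl h), fun h => h1 (Or.inr (hGC h))⟩
  · intro i
    exact (mem_filter.1 (e i).2).2
  · rw [hsumA]
    omega
  · intro hnr
    have hn : d ≤ Fintype.card V := by
      by_contra hc
      push Not at hc
      rcases isEmpty_or_nonempty V with hV | ⟨⟨v⟩⟩
      · exact hnr ⟨fun v => (hV.false v).elim, fun q _ => ⟨0, 0, by simp, fun v =>
          (hV.false v).elim⟩⟩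
      · have h1 := Pool.Agent.U656.RG.card_nb_lt C v
        have h2 := hdegC v
        nlinarith
    refine ⟨?_, ?_⟩
    · intro i hi
      apply hnr
      have hR := hSE _ (e i).2
      refine Pool.Agent.U656.RG.rigid_of_complete hp hn ?_
      intro x y hxy
      have hall : ∀ z, z ∈ (e i : Finset V) := by
        intro z
        have hz : z ∈ A i ∪ nbhd G (A i) := by rw [hi]; trivial
        rcases hz with hz | hz
        · exact (Pool.Agent.U656.RG.mem_itr.1 (mem_coe.1 hz)).1
        · exact (Pool.Agent.U656.RG.mem_bd.1 (mem_coe.1 (hnb _ hR hz))).1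
      exact Pool.Agent.U656.RG.ends_clique hR x (hall x) y (hall y) hxy
    · rw [hsumA]
      rw [genRigid_iff hp hn] at hnr
      have heven : 2 * (d * (d + 1) / 2) = d * (d + 1) :=
        Nat.mul_div_cancel' (Nat.even_mul_succ_self d).two_dvd
      omega

end Pool.Agent.Results.MP_37c7bf_co.SmallCuts
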