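import Mathlib
import Pool.Agent.U656.RG.VT
import Pool.Agent.U656.RG.Sharp

/-!
# Generic rigidity of vertex-transitive graphs

The connected vertex-transitive graphs of degree at least `3 d (d + 1) / 4 + 1` which are generically
rigid in `ℝ^d` are determined (in `ℝ³`: degree at least ten). The only flexible ones are the large
graphs whose vertex set has a partition into sets of fewer than `d (d + 1)` elements such that each
vertex has exactly one neighbour outside its set. So all connected vertex-transitive graphs of
degree at least `d (d + 1)` are generically rigid in `ℝ^d`, and `d (d + 1)` is best possible.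

Outline. Let `C` be the closure of `G` in the generic rigidity matroid. Take a random order of the
vertices and add them one by one: a new vertex with the set `S` of earlier neighbours in `C` raises
the rank by at least `min (d, |S|)`, and by one more if `|S| > d` and `S` is not complete. The
expected gain at a vertex depends on its neighbourhood only, in which two maximal complete sets have
fewer than `d - 1` common vertices. It is at least `d` if the degree is at least
`3 d (d + 1) / 4 + 1` and no complete set contains all neighbours but at most one. So, if `G` is not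
generically rigid, then `C` is a disjoint union of complete graphs, connected by a perfect matching
(all edges of which are in `G`), and in this case the estimate is sharp. The average is computed by
induction (deleting each vertex in turn), not with probabilities.
-/

set_option autoImplicit false

namespace Pool.Agent.Results.MP_37c7bf_co.VertexTransitive

open Finset Pool.Agent.H283R2.DR Pool.Agent.H789R5 Pool.Agent.N423.DE

/-- any vertex can be moved to any other vertex by an automorphism of the graph -/
def IsVertexTransitive {V : Type} (G : SimpleGraph V) : Prop := ∀ u v, ∃ φ : G ≃g G, φ u = v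

/-- the vertex set has a partition into sets with `D` elements such that each vertex has exactly one
neighbour outside its set -/
def MatchedPartition {V : Type} (D : ℕ) (G : SimpleGraph V) : Prop :=
  ∃ r : Setoid V, ∀ v, {w | r v w}.ncard = D ∧ {w | G.Adj v w ∧ ¬ r v w}.ncard = 1

/-- the vertex set has a partition into sets of `k` pairwise adjacent vertices -/
def CliquePartition {V : Type} (k : ℕ) (G : SimpleGraph V) : Prop :=
  ∃ r : Setoid V, ∀ v, {w | r v w}.ncard = k ∧ ∀ w, r v w → w ≠ v → G.Adj v w

theorem nb_card {V : Type} [Fintype V] (G : SimpleGraph V) (v : V) :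
    (nb G v).card = {w | G.Adj v w}.ncard := (ncard_nb G v).symm

open Pool.Agent.U656.RG in
theorem matched_iff {V : Type} [Fintype V] (D : ℕ) (G : SimpleGraph V) :
    (∃ B : V → Finset V, IsSparsePart D G B) ↔ MatchedPartition D G := by
  classical
  constructor
  · rintro ⟨B, hB⟩
    refine ⟨Setoid.ker B, fun v => ⟨?_, ?_⟩⟩
    · rw [← (hB v).2.1, ← Set.ncard_coe_finset]
      congr 1
      ext w
      rw [mem_coe, hB.mem_iff v w]
      exact ⟨fun h => (Setoid.ker_def.1 h).symm, fun h => Setoid.ker_def.2 h.symm⟩
    · rw [← (hB v).2.2.2, nb_card]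
      congr 1
  · rintro ⟨r, hr⟩
    have hmem : ∀ v w, (univ.filter fun z => r v z) = (univ.filter fun z => r w z) ↔ r v w := by
      intro v w
      constructor
      · intro h
        have h1 : w ∈ univ.filter fun z => r w z := mem_filter.2 ⟨mem_univ _, r.refl w⟩
        rw [← h] at h1
        exact (mem_filter.1 h1).2
      · intro h
        ext z
        rw [mem_filter, mem_filter]
        exact ⟨fun h' => ⟨h'.1, r.trans (r.symm h) h'.2⟩, fun h' => ⟨h'.1, r.trans h h'.2⟩⟩
    refine ⟨fun v => univ.filter fun w => r v w, fun v => ⟨?_, ?_, fun w hw => ?_, ?_⟩⟩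
    · exact mem_filter.2 ⟨mem_univ _, r.refl v⟩
    · rw [← (hr v).1, ← Set.ncard_coe_finset]
      congr 1
      ext w
      simp
    · exact (hmem w v).2 (r.symm (mem_filter.1 hw).2)
    · rw [← (hr v).2, nb_card]
      congr 1
      ext w
      exact and_congr_right fun _ => not_congr (hmem v w)

open Pool.Agent.U656.RG in
theorem part_iff {V : Type} [Fintype V] (k : ℕ) (G : SimpleGraph V) :
    (∃ B : V → Finset V, IsPart k G B) ↔ CliquePartition k G := by
  classical
  constructor
  · rintro ⟨B, hB⟩
    refine ⟨Setoid.ker B, fun v => ⟨?_, fun w hw hne => ?_⟩⟩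
    · rw [← (hB v).2.1, ← Set.ncard_coe_finset]
      congr 1
      ext w
      rw [mem_coe, hB.mem_iff v w]
      exact ⟨fun h => (Setoid.ker_def.1 h).symm, fun h => Setoid.ker_def.2 h.symm⟩
    · exact ((hB v).2.2 w ((hB.mem_iff v w).2 (Setoid.ker_def.1 hw).symm)).2 hne
  · rintro ⟨r, hr⟩
    refine ⟨fun v => univ.filter fun w => r v w, fun v => ⟨?_, ?_, fun w hw => ?_⟩⟩
    · exact mem_filter.2 ⟨mem_univ _, r.refl v⟩
    · rw [← (hr v).1, ← Set.ncard_coe_finset]
      congr 1
      ext w
      simp
    · have h1 : r v w := (mem_filter.1 hw).2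
      refine ⟨?_, (hr v).2 w h1⟩
      ext z
      rw [mem_filter, mem_filter]
      exact ⟨fun h => ⟨h.1, r.trans h1 h.2⟩, fun h => ⟨h.1, r.trans (r.symm h1) h.2⟩⟩

/-- **Generic rigidity of vertex-transitive graphs.**

(1) Let `d ≥ 1`, `k ≥ 3 d (d + 1) / 4 + 1`, and let `G` be a finite connected vertex-transitive graph
with `n` vertices of degree `k`. Then `G` is generically rigid in `ℝ^d` unless its vertex set has, for
some `D` with `d (d + 1) D < (d (d + 1) - D) n` (so `D < d (d + 1)`), a partition into sets with `D`
elements such that each vertex has exactly one neighbour outside its set; in this case `G` is not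
generically rigid in `ℝ^d`.

(2) For `d = 3` and `k ≥ 10` the exceptions are the graphs whose vertex set has a partition into
complete graphs with `k` vertices, and `12 k < (12 - k) n` (so `k = 10` and `n > 60`, or `k = 11` and
`n > 132`).

(3) In particular `G` is generically rigid in `ℝ^d` if `k ≥ d (d + 1)`, and this is best possible:
for every `d ≥ 2` there is a finite connected vertex-transitive graph of degree `d (d + 1) - 1` which
is not generically rigid in `ℝ^d`. -/
theorem result :
    (∀ (d k : ℕ) (V : Type) [Fintype V] (G : SimpleGraph V), 1 ≤ d →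
      3 * (d * (d + 1)) + 4 ≤ 4 * k → G.Connected → IsVertexTransitive G →
      (∀ v, {w | G.Adj v w}.ncard = k) →
      (GenRigid d G ↔ ¬ ∃ D : ℕ, MatchedPartition D G ∧
        d * (d + 1) * D < (d * (d + 1) - D) * Fintype.card V)) ∧
    (∀ (k : ℕ) (V : Type) [Fintype V] (G : SimpleGraph V), 10 ≤ k → G.Connected →
      IsVertexTransitive G → (∀ v, {w | G.Adj v w}.ncard = k) →
      (GenRigid 3 G ↔ ¬ (CliquePartition k G ∧ 12 * k < (12 - k) * Fintype.card V))) ∧
    (∀ (d : ℕ) (V : Type) [Fintype V] (G : SimpleGraph V), 1 ≤ d → G.Connected →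
      IsVertexTransitive G → (∀ v, d * (d + 1) ≤ {w | G.Adj v w}.ncard) → GenRigid d G) ∧
    (∀ d : ℕ, 2 ≤ d → ∃ (V : Type) (_ : Fintype V) (G : SimpleGraph V), G.Connected ∧
      IsVertexTransitive G ∧ (∀ v, {w | G.Adj v w}.ncard + 1 = d * (d + 1)) ∧ ¬ GenRigid d G) := by
  refine ⟨?_, ?_, ?_, ?_⟩
  · intro d k V _ G hd hk hconn htr hdeg
    rw [Pool.Agent.U656.RG.vt_iff hd hk hconn htr (fun v => by rw [nb_card]; exact hdeg v),
      not_iff_not]
    constructor
    · rintro ⟨B, D, h1, h2⟩
      exact ⟨D, (matched_iff D G).1 ⟨B, h1⟩, h2⟩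
    · rintro ⟨D, h1, h2⟩
      obtain ⟨B, hB⟩ := (matched_iff D G).2 h1
      exact ⟨B, D, hB, h2⟩
  · intro k V _ G hk hconn htr hdeg
    rw [← part_iff]
    exact Pool.Agent.U656.RG.vt_three hk hconn htr (fun v => by rw [nb_card]; exact hdeg v)
  · intro d V _ G hd hconn htr hdeg
    exact Pool.Agent.U656.RG.vt_rigid hd hconn htr (fun v => by rw [nb_card]; exact hdeg v)
  · intro d hd
    obtain ⟨V, hV, G, h1, h2, h3, h4⟩ := Pool.Agent.U656.RG.sharp hd
    exact ⟨V, hV, G, h1, h2, fun v => by rw [← nb_card]; exact h3 v, h4⟩

end Pool.Agent.Results.MP_37c7bf_co.VertexTransitive
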